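import Pool.Agent.TH511.HLC.Cells

/-!
# Halving lines of point sets with a convex pattern

Definitions. In `Pool/Agent/W296/HL3.lean` (namespace `Pool.Agent.W296.HL`):

* `Line a b c = {p | a * p.1 + b * p.2 = c}`,
* `GeneralPosition P`: no three distinct points of `P` on a common line,
* `IsBisector P L`: `L` is a line through two distinct points of `P` with exactly
  `|P| / 2 - 1` points of `P` on each open side.

In `Pool/Agent/TH511/HLC/Part.lean` and `Pool/Agent/TH511/HLC/Loc.lean`
(namespace `Pool.Agent.TH511.HLC`):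

* `ConvexPosition A`: no point of the finite set `A` is in the convex hull of the other points,
* `BisIn P S`: the bisectors of `P` that pass through two distinct points of `S`.
-/

set_option autoImplicit false

open Finset

namespace Pool.Agent.Results.MP_e17eac_co.ConvexPartition

open Pool.Agent.W296.HL Pool.Agent.TH511.HLC

open scoped Classical in
/-- Let `P` be a finite set of points of the plane in general position and `S ⊆ P`.
1. If `K_1, …, K_s` are convex sets such that every `p ∈ S` is a vertex of the convex hull of the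
points of `P` lying in all the `K_i` that contain `p`, then at most
`|S| / 2 + ∑ |P \ K_i|` bisectors of `P` pass through two points of `S`.
2. If `m` lines, none of them through a point of `P`, cut the plane into cells such that the points
of `P` in each cell are in convex position, then `P` has at most `(m + 1/2) |P|` bisectors.
3. If `S` is covered by `c` sets `A_i` in convex position, at most
`|S| / 2 + ∑ |P \ conv A_i|` bisectors of `P` pass through two points of `S`, for `c = 1` at most
`(|S| + |P \ conv S|) / 2`.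
4. If `P` itself is covered by `c` sets in convex position, `P` has at most `(c - 1/2) |P|`
bisectors. -/
theorem result :
    (∀ P : Finset (ℝ × ℝ), GeneralPosition P → ∀ S ⊆ P, ∀ (s : ℕ) (K : Fin s → Set (ℝ × ℝ)),
      (∀ i, Convex ℝ (K i)) →
      (∀ p ∈ S, p ∉ convexHull ℝ {q : ℝ × ℝ | q ∈ P ∧ (∀ i, p ∈ K i → q ∈ K i) ∧ q ≠ p}) →
      2 * (BisIn P S).ncard ≤ #S + 2 * ∑ i, #{p ∈ P | p ∉ K i}) ∧
    (∀ P : Finset (ℝ × ℝ), GeneralPosition P → ∀ (m : ℕ) (a b d : Fin m → ℝ),
      (∀ t, ∀ p ∈ P, a t * p.1 + b t * p.2 ≠ d t) →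
      (∀ p ∈ P, p ∉ convexHull ℝ {q : ℝ × ℝ | q ∈ P ∧
        (∀ t, (d t < a t * p.1 + b t * p.2 ↔ d t < a t * q.1 + b t * q.2)) ∧ q ≠ p}) →
      2 * {L | IsBisector P L}.ncard ≤ (2 * m + 1) * #P) ∧
    (∀ P : Finset (ℝ × ℝ), GeneralPosition P → ∀ S ⊆ P,
      ∀ (c : ℕ) (A : Fin c → Finset (ℝ × ℝ)), (∀ i, ConvexPosition (A i)) →
      (∀ p ∈ S, ∃ i, p ∈ A i) →
      2 * (BisIn P S).ncard ≤
        #S + 2 * ∑ i, #{p ∈ P | p ∉ convexHull ℝ (A i : Set (ℝ × ℝ))}) ∧
    (∀ P : Finset (ℝ × ℝ), GeneralPosition P → ∀ S ⊆ P, ConvexPosition S →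
      2 * (BisIn P S).ncard ≤ #S + #{p ∈ P | p ∉ convexHull ℝ (S : Set (ℝ × ℝ))}) ∧
    (∀ P : Finset (ℝ × ℝ), GeneralPosition P → Even #P →
      ∀ (c : ℕ) (A : Fin c → Finset (ℝ × ℝ)), (∀ i, ConvexPosition (A i)) →
      (∀ p ∈ P, ∃ i, p ∈ A i) →
      2 * {L | IsBisector P L}.ncard + #P ≤ 2 * c * #P) :=
  ⟨fun _ hP S hS _ K hK hv => pattern_local (gen_of_gp hP) S hS K hK hv,
    fun _ hP _ a b d hne hv => cells (gen_of_gp hP) a b d hne hv,
    fun _ hP S hS _ A hA hc => cover_local (gen_of_gp hP) S hS A hA hc,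
    fun _ hP S hS hA => convex_local (gen_of_gp hP) S hS hA,
    fun _ hP hE _ A hA hc => cover' (gen_of_gp hP) hE A hA hc⟩

end Pool.Agent.Results.MP_e17eac_co.ConvexPartition
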