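import Pool.Agent.TH124.KE.HalvFinal
/-!
# Halving lines of point sets that are convex up to few points

Definitions (in `Pool/Agent/W296/HL3.lean`, namespace `Pool.Agent.W296.HL`):

* `Line a b c = {p | a * p.1 + b * p.2 = c}`,
* `GeneralPosition P`: no three distinct points of `P` on a common line,
* `IsBisector P L`: `L` is a line through two distinct points of `P` with exactly
  `|P| / 2 - 1` points of `P` on each open side.
-/

set_option autoImplicit false

open Finset

namespace Pool.Agent.Results.MP_e17eac_co.ConvexUpToFewPoints

open Pool.Agent.W296.HL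

open scoped Classical in
/-- If all but `m` points of a set `P` of `n` points in general position are covered by `c` sets in
convex position, then `P` has at most `4 c n + 7 (m n) ^ (2 / 3)` bisectors. -/
theorem result (P : Finset (ℝ × ℝ)) (hP : GeneralPosition P) (_hE : Even #P) (c : ℕ)
    (A : Fin c → Finset (ℝ × ℝ))
    (hA : ∀ i, ∀ p ∈ A i, p ∉ convexHull ℝ ((A i : Set (ℝ × ℝ)) \ {p})) :
    ({L | IsBisector P L}.ncard : ℝ) ≤
      4 * c * #P + 7 * ((#(P \ univ.biUnion A) : ℝ) * #P) ^ (2 / 3 : ℝ) :=
  Pool.Agent.TH124.KE.bisectors_bound P hP c A hA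

end Pool.Agent.Results.MP_e17eac_co.ConvexUpToFewPoints
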