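import Pool.Agent.TH3.CH.Dir

/-!
# Many halving lines force long convex chains of halving lines

`Line`, `GeneralPosition` and `IsBisector` are the definitions of the starting files
(`Pool/Agent/W296/HL3.lean`); `ConvexChain α β p` is defined in `Pool/Agent/TH3/CH/Dir.lean`.
-/

set_option autoImplicit false

namespace Pool.Agent.Results.MP_e17eac_co.LongChains

open Finset
open Pool.Agent.W296.HL (GeneralPosition IsBisector)
open Pool.Agent.TH3.CH (ConvexChain)

/-- If a set `P` of `n` points in general position (`n` even) has more than `t n / 2` bisectors,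
then in every direction `(α, β)` along which `P` projects injectively there are `t + 2` points of
`P` which form a convex chain and are in convex position, and any two consecutive points of the
chain span a bisector of `P`. -/
theorem result : ∀ P : Finset (ℝ × ℝ), GeneralPosition P → Even #P → ∀ t : ℕ,
    t * #P < 2 * {L | IsBisector P L}.ncard →
    ∀ α β : ℝ, (α ≠ 0 ∨ β ≠ 0) →
      (∀ p ∈ P, ∀ q ∈ P, p ≠ q → α * p.1 + β * p.2 ≠ α * q.1 + β * q.2) →
      ∃ p : Fin (t + 2) → ℝ × ℝ, (∀ i, p i ∈ P) ∧ ConvexChain α β p ∧
        (∀ i, p i ∉ convexHull ℝ (Set.range p \ {p i})) ∧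
        ∀ i : Fin (t + 1), ∃ L, IsBisector P L ∧ p i.castSucc ∈ L ∧ p i.succ ∈ L :=
  fun _ hP hE _ ht _ _ hab hx => Pool.Agent.TH3.CH.long_dir hP hE ht hab hx

end Pool.Agent.Results.MP_e17eac_co.LongChains
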