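import Pool.Agent.TH529.RD.Fin

/-!
# Halving lines of random subsets of an arbitrary point set

Definitions (in `Pool/Agent/W296/HL3.lean`, namespace `Pool.Agent.W296.HL`):

* `Line a b c = {p | a * p.1 + b * p.2 = c}`,
* `GeneralPosition P`: no three distinct points of `P` on a common line,
* `IsBisector P L`: `L` is a line through two distinct points of `P` with exactly
  `|P| / 2 - 1` points of `P` on each open side.
-/

set_option autoImplicit false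

open Finset

namespace Pool.Agent.Results.MP_e17eac_co.RandomDeletion

open Pool.Agent.W296.HL

/-- the average number of bisectors of the `n`-point subsets of `P` -/
noncomputable def average (P : Finset (ℝ × ℝ)) (n : ℕ) : ℝ :=
  (∑ R ∈ P.powersetCard n, ({L | IsBisector R L}.ncard : ℝ)) / ((#P).choose n : ℝ)

theorem rpow_six {x : ℝ} (hx : 0 ≤ x) (k : ℕ) : (x ^ ((k : ℝ) / 6)) ^ 6 = x ^ k := by
  rw [← Real.rpow_natCast (x ^ ((k : ℝ) / 6)) 6, ← Real.rpow_mul hx]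
  norm_num

theorem main (P : Finset (ℝ × ℝ)) (hP : GeneralPosition P) (n : ℕ) (hn : Even n) (hnP : n ≤ #P) :
    average P n ≤ 20 * (n : ℝ) ^ (7 / 6 : ℝ) * ((#P : ℝ) / (#P - n + 1)) ^ (1 / 6 : ℝ) := by
  have h := Pool.Agent.TH529.RD.main_six (gen_of_gp hP) hn hnP
  obtain ⟨H, hH⟩ : ∃ H : ℝ, H = ((∑ R ∈ powersetCard n P, {L | IsBisector R L}.ncard : ℕ) : ℝ) :=
    ⟨_, rfl⟩
  rw [← hH] at h
  have hav : average P n = H / ((#P).choose n : ℝ) := by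
    unfold average
    rw [hH]
    push_cast
    rfl
  rw [hav]
  have hC : (0 : ℝ) < ((#P).choose n : ℝ) := by exact_mod_cast Nat.choose_pos hnP
  have hN : (n : ℝ) ≤ #P := by exact_mod_cast hnP
  have hd : (0 : ℝ) < (#P : ℝ) - n + 1 := by linarith
  have hn0 : (0 : ℝ) ≤ n := Nat.cast_nonneg n
  have hN0 : (0 : ℝ) ≤ #P := Nat.cast_nonneg _
  have hq0 : (0 : ℝ) ≤ (#P : ℝ) / (#P - n + 1) := div_nonneg hN0 hd.le
  have e1 : ((n : ℝ) ^ (7 / 6 : ℝ)) ^ 6 = n ^ 7 := by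
    have := rpow_six hn0 7
    push_cast at this
    exact this
  have e2 : (((#P : ℝ) / (#P - n + 1)) ^ (1 / 6 : ℝ)) ^ 6 = (#P : ℝ) / (#P - n + 1) := by
    have := rpow_six hq0 1
    push_cast at this
    rw [this, pow_one]
  have h0 : 0 ≤ 20 * (n : ℝ) ^ (7 / 6 : ℝ) * ((#P : ℝ) / (#P - n + 1)) ^ (1 / 6 : ℝ) := by
    have := Real.rpow_nonneg hn0 (7 / 6)
    have := Real.rpow_nonneg hq0 (1 / 6)
    positivity
  refine le_of_pow_le_pow_left₀ (n := 6) (by norm_num) h0 ?_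
  rw [mul_pow, mul_pow, e1, e2, div_pow, div_le_iff₀ (by positivity)]
  have e3 : 20 ^ 6 * (n : ℝ) ^ 7 * ((#P : ℝ) / (#P - n + 1)) * ((#P).choose n : ℝ) ^ 6 =
      (20 ^ 6 * (n : ℝ) ^ 7 * #P * ((#P).choose n : ℝ) ^ 6) / (#P - n + 1) := by
    field_simp
  rw [e3, le_div_iff₀ hd]
  exact h

theorem two_sixth : (20 : ℝ) * (2 : ℝ) ^ (1 / 6 : ℝ) ≤ 23 := by
  refine le_of_pow_le_pow_left₀ (n := 6) (by norm_num) (by norm_num) ?_
  rw [mul_pow]
  have := rpow_six (x := 2) (by norm_num) 1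
  push_cast at this
  rw [this]
  norm_num

/-- Halving lines of random subsets of an arbitrary point set `P` in general position (`n` even):
1. the average number of bisectors of the `n`-point subsets of `P` is at most
   `20 n ^ (7/6) (|P| / (|P| - n + 1)) ^ (1/6)`;
2. it is at most `23 n ^ (7/6)` if `P` has at least `2 n` points;
3. if `r ≤ n` random points are deleted from a set of `n + r` points, the expected number of
   bisectors of the remaining set is at most `23 n ^ (4/3) / r ^ (1/6)`. -/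
theorem result :
    (∀ P : Finset (ℝ × ℝ), GeneralPosition P → ∀ n : ℕ, Even n → n ≤ #P →
      average P n ≤ 20 * (n : ℝ) ^ (7 / 6 : ℝ) * ((#P : ℝ) / (#P - n + 1)) ^ (1 / 6 : ℝ)) ∧
    (∀ P : Finset (ℝ × ℝ), GeneralPosition P → ∀ n : ℕ, Even n → 2 * n ≤ #P →
      average P n ≤ 23 * (n : ℝ) ^ (7 / 6 : ℝ)) ∧
    (∀ P : Finset (ℝ × ℝ), GeneralPosition P → ∀ n r : ℕ, Even n → 1 ≤ r → r ≤ n →
      #P = n + r → average P n ≤ 23 * (n : ℝ) ^ (4 / 3 : ℝ) / (r : ℝ) ^ (1 / 6 : ℝ)) := by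
  refine ⟨main, ?_, ?_⟩
  · intro P hP n hn h2
    have h := main P hP n hn (by omega)
    refine h.trans ?_
    have hN : 2 * (n : ℝ) ≤ #P := by exact_mod_cast h2
    have hn0 : (0 : ℝ) ≤ n := Nat.cast_nonneg n
    have hN0 : (0 : ℝ) ≤ #P := Nat.cast_nonneg _
    have hd : (0 : ℝ) < (#P : ℝ) - n + 1 := by linarith
    have hq : (#P : ℝ) / (#P - n + 1) ≤ 2 := by
      rw [div_le_iff₀ hd]; linarith
    have h1 : ((#P : ℝ) / (#P - n + 1)) ^ (1 / 6 : ℝ) ≤ (2 : ℝ) ^ (1 / 6 : ℝ) :=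
      Real.rpow_le_rpow (div_nonneg hN0 hd.le) hq (by norm_num)
    have h3 : 0 ≤ (n : ℝ) ^ (7 / 6 : ℝ) := Real.rpow_nonneg hn0 _
    calc 20 * (n : ℝ) ^ (7 / 6 : ℝ) * ((#P : ℝ) / (#P - n + 1)) ^ (1 / 6 : ℝ) ≤
          20 * (n : ℝ) ^ (7 / 6 : ℝ) * (2 : ℝ) ^ (1 / 6 : ℝ) :=
          mul_le_mul_of_nonneg_left h1 (by positivity)
      _ = (20 * (2 : ℝ) ^ (1 / 6 : ℝ)) * (n : ℝ) ^ (7 / 6 : ℝ) := by ring
      _ ≤ 23 * (n : ℝ) ^ (7 / 6 : ℝ) := mul_le_mul_of_nonneg_right two_sixth h3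
  · intro P hP n r hn hr1 hrn hc
    have h := main P hP n hn (by omega)
    refine h.trans ?_
    rw [hc]
    have hn1 : (1 : ℝ) ≤ n := by exact_mod_cast hr1.trans hrn
    have hr : (1 : ℝ) ≤ r := by exact_mod_cast hr1
    have hrn' : (r : ℝ) ≤ n := by exact_mod_cast hrn
    have hn0 : (0 : ℝ) < n := by linarith
    have hr0 : (0 : ℝ) < r := by linarith
    push_cast
    have e : (n : ℝ) + r - n + 1 = r + 1 := by ring
    rw [e]
    have hq : ((n : ℝ) + r) / (r + 1) ≤ 2 * (n / r) := by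
      rw [div_le_iff₀ (by linarith), mul_assoc, div_mul_eq_mul_div, ← mul_div_assoc,
        le_div_iff₀ hr0]
      nlinarith
    have h1 : (((n : ℝ) + r) / (r + 1)) ^ (1 / 6 : ℝ) ≤ (2 * ((n : ℝ) / r)) ^ (1 / 6 : ℝ) :=
      Real.rpow_le_rpow (by positivity) hq (by norm_num)
    rw [Real.mul_rpow (by norm_num) (by positivity), Real.div_rpow hn0.le hr0.le] at h1
    have h3 : 0 < (n : ℝ) ^ (7 / 6 : ℝ) := Real.rpow_pos_of_pos hn0 _
    have h4 : 0 < (r : ℝ) ^ (1 / 6 : ℝ) := Real.rpow_pos_of_pos hr0 _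
    have h5 : 0 < (n : ℝ) ^ (1 / 6 : ℝ) := Real.rpow_pos_of_pos hn0 _
    have e2 : (n : ℝ) ^ (4 / 3 : ℝ) = (n : ℝ) ^ (7 / 6 : ℝ) * (n : ℝ) ^ (1 / 6 : ℝ) := by
      rw [← Real.rpow_add hn0]; norm_num
    calc 20 * (n : ℝ) ^ (7 / 6 : ℝ) * (((n : ℝ) + r) / (r + 1)) ^ (1 / 6 : ℝ) ≤
          20 * (n : ℝ) ^ (7 / 6 : ℝ) *
            ((2 : ℝ) ^ (1 / 6 : ℝ) * ((n : ℝ) ^ (1 / 6 : ℝ) / (r : ℝ) ^ (1 / 6 : ℝ))) :=
          mul_le_mul_of_nonneg_left h1 (by positivity)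
      _ = (20 * (2 : ℝ) ^ (1 / 6 : ℝ)) *
            ((n : ℝ) ^ (7 / 6 : ℝ) * (n : ℝ) ^ (1 / 6 : ℝ) / (r : ℝ) ^ (1 / 6 : ℝ)) := by ring
      _ ≤ 23 * ((n : ℝ) ^ (7 / 6 : ℝ) * (n : ℝ) ^ (1 / 6 : ℝ) / (r : ℝ) ^ (1 / 6 : ℝ)) :=
          mul_le_mul_of_nonneg_right two_sixth (by positivity)
      _ = 23 * (n : ℝ) ^ (4 / 3 : ℝ) / (r : ℝ) ^ (1 / 6 : ℝ) := by rw [e2]; ring

end Pool.Agent.Results.MP_e17eac_co.RandomDeletion
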